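import Pool.Agent.helper3.XT.Spec

/-! # Row xt:ARI (MP_51d945_co) -/

set_option autoImplicit false

open Finset SimpleGraph

namespace Pool.Agent.XT

theorem ARI : ARI_stmt := by
  intro K D n hK hn hD h
  have hn1 : (1 : ℝ) ≤ n := by exact_mod_cast hn
  have hn4 : (1 : ℝ) ≤ (n : ℝ) ^ 4 := one_le_pow₀ hn1
  have hK0 : 0 < K := by linarith
  have h1 : K ^ 13 ≤ D ^ 13 := by
    refine le_trans ?_ h
    have : 0 ≤ K ^ 13 := by positivity
    nlinarith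
  have hKD : K ≤ D := le_of_pow_le_pow_left₀ (by norm_num) hD.le h1
  refine ⟨hKD, ?_⟩
  by_contra hcon
  push Not at hcon
  have h2 : (D ^ 4) ^ 4 < (K * n) ^ 4 := pow_lt_pow_left₀ hcon (by positivity) (by norm_num)
  have h3 : K ^ 9 * (D ^ 4) ^ 4 < K ^ 9 * (K * n) ^ 4 := mul_lt_mul_of_pos_left h2 (by positivity)
  have e1 : K ^ 9 * (K * n) ^ 4 = K ^ 13 * n ^ 4 := by ring
  have e2 : K ^ 9 * (D ^ 4) ^ 4 = (K ^ 9 * D ^ 3) * D ^ 13 := by ring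
  rw [e1, e2] at h3
  have h4 : (K ^ 9 * D ^ 3) * D ^ 13 < 1 * D ^ 13 := by
    rw [one_mul]
    exact lt_of_lt_of_le h3 h
  have h5 : K ^ 9 * D ^ 3 < 1 := lt_of_mul_lt_mul_right h4 (by positivity)
  have h6 : 1 ≤ K ^ 9 := one_le_pow₀ hK
  have h7 : 1 ≤ D ^ 3 := one_le_pow₀ (hK.trans hKD)
  have h8 := one_le_mul_of_one_le_of_one_le h6 h7
  linarith

end Pool.Agent.XT
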